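import Pool.Agent.R728.TN.Quot

/-! Two-number and mod 2 Betti number of the quotient of `S² × S² × S²` by the even sign
changes. -/

set_option autoImplicit false

open scoped Manifold ContDiff Topology ENNReal
open Set Bundle Bornology Filter Manifold MeasureTheory Module

noncomputable section

namespace Pool.Agent.R728.TN

open Pool.Agent.Y503.HC (IsIsometry IsQuotient dist_map_le)
open Pool.Agent.Helper381

attribute [local instance] actG

variable {N : Type} [TopologicalSpace N] [ChartedSpace (ModelProd E2 (ModelProd E2 E2)) N]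
  [IsManifold II ∞ N]
  {g' : Pool.Agent.Y503.HC.Metric II N} {p : MM → N}

lemma desc_map (hq : IsQuotient Gam gM g' p) (T : LL) :
    ∃ ψ : N → N, (∀ x, ψ (p x) = p (act T x)) ∧
      ∀ m n, Pool.Agent.Y503.HC.dist g' (ψ m) (ψ n) ≤ Pool.Agent.Y503.HC.dist g' m n := by
  obtain ⟨ψ, h1, h2, h3⟩ := descend hq (actD T) (actD_isometry T) (by
    intro x y hxy
    obtain ⟨γ, hγ⟩ := (hq.fibre x y).1 hxy
    refine (hq.fibre _ _).2 ⟨γ, ?_⟩
    rw [← hγ]
    exact (act_smul T γ x).symm)
  exact ⟨ψ, h2, fun m n => dist_map_le g' g' h1 (fun x v => h3 x v v) m n⟩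

variable [T2Space N] [CompactSpace N] [ConnectedSpace N]

/-- a triple of linear isometries induces an isometry of the quotient -/
theorem exists_desc (hq : IsQuotient Gam gM g' p) (T : LL) :
    letI := mN g'
    ∃ s : N ≃ᵢ N, ∀ x, s (p x) = p (act T x) := by
  letI := mN g'
  obtain ⟨ψ, h1, h2⟩ := desc_map hq T
  obtain ⟨χ, h3, h4⟩ := desc_map hq (inv3 T)
  have i1 : ∀ n, χ (ψ n) = n := by
    intro n
    obtain ⟨x, rfl⟩ := hq.surjective n
    rw [h1, h3]
    exact congrArg p ((actD T).left_inv x)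
  have i2 : ∀ n, ψ (χ n) = n := by
    intro n
    obtain ⟨x, rfl⟩ := hq.surjective n
    rw [h3, h1]
    exact congrArg p ((actD T).right_inv x)
  refine ⟨{ toFun := ψ, invFun := χ, left_inv := i1, right_inv := i2, isometry_toFun := ?_ }, h1⟩
  intro m n
  show edist (ψ m) (ψ n) = edist m n
  rw [edist_mN, edist_mN]
  apply le_antisymm (h2 m n)
  have := h4 (ψ m) (ψ n)
  rwa [i1, i1] at this

omit [T2Space N] [CompactSpace N] [ConnectedSpace N] in
/-- neighbourhoods of a point of the quotient -/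
lemma nhd_mem (hq : IsQuotient Gam gM g' p) (x : MM) :
    p '' {y : MM | 0 < inner ℝ (x.1 : E3) (y.1 : E3) ∧ 0 < inner ℝ (x.2.1 : E3) (y.2.1 : E3) ∧
      0 < inner ℝ (x.2.2 : E3) (y.2.2 : E3)} ∈ 𝓝 (p x) := by
  have hopen : IsOpenMap p := hq.covering.isLocalHomeomorph.isOpenMap
  apply hopen.image_mem_nhds
  have c1 : Continuous fun y : MM => inner ℝ (x.1 : E3) (y.1 : E3) :=
    continuous_const.inner (continuous_subtype_val.comp continuous_fst)
  have c2 : Continuous fun y : MM => inner ℝ (x.2.1 : E3) (y.2.1 : E3) :=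
    continuous_const.inner (continuous_subtype_val.comp (continuous_fst.comp continuous_snd))
  have c3 : Continuous fun y : MM => inner ℝ (x.2.2 : E3) (y.2.2 : E3) :=
    continuous_const.inner (continuous_subtype_val.comp (continuous_snd.comp continuous_snd))
  have hp : ∀ u : S2, 0 < inner ℝ (u : E3) (u : E3) := fun u =>
    real_inner_self_pos.2 (ne_zero_S2 u)
  apply IsOpen.mem_nhds
  · exact (isOpen_lt continuous_const c1).inter
      ((isOpen_lt continuous_const c2).inter (isOpen_lt continuous_const c3))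
  · exact ⟨hp _, hp _, hp _⟩

/-- the reflection in the line of `u` -/
abbrev rf (u : E3) : E3 ≃ₗᵢ[ℝ] E3 := (ℝ ∙ u).reflection

lemma rf_apply {u : E3} (hu : ‖u‖ = 1) (v : E3) : rf u v = (2 * inner ℝ u v) • u - v := by
  rw [rf, Submodule.reflection_apply, Submodule.starProjection_unit_singleton ℝ hu, two_smul,
    ← add_smul, ← two_mul]

lemma norm_S2 (u : S2) : ‖(u : E3)‖ = 1 := mem_sphere_zero_iff_norm.1 u.2

/-- eigenvectors of the reflection -/
lemma rf_pos {u v : E3} (hu : ‖u‖ = 1) (h : rf u v = sg 1 v) : v = inner ℝ u v • u := by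
  rw [rf_apply hu, sg_one, sub_eq_iff_eq_add, ← two_smul ℝ v, mul_smul] at h
  have h2 := smul_right_injective E3 (two_ne_zero (α := ℝ)) h
  exact h2.symm

lemma rf_neg {u v : E3} (hu : ‖u‖ = 1) (h : rf u v = sg (-1) v) : inner ℝ u v = (0 : ℝ) := by
  rw [rf_apply hu, sg_neg_one, sub_eq_neg_self, smul_eq_zero] at h
  rcases h with h | h
  · linarith
  · rw [h, norm_zero] at hu
    norm_num at hu

/-- a unit vector parallel to `u` is `u` or `-u` -/
lemma unit_par {u v : E3} (hu : ‖u‖ = 1) (hv : ‖v‖ = 1) (h : v = inner ℝ u v • u) :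
    v = u ∨ v = -u := by
  have h1 : ‖v‖ = |inner ℝ u v| * ‖u‖ := by
    conv_lhs => rw [h]
    rw [norm_smul, Real.norm_eq_abs]
  rw [hu, hv, mul_one] at h1
  rcases abs_eq (zero_le_one (α := ℝ)) |>.1 h1.symm with h2 | h2
  · left; rw [h, h2, one_smul]
  · right; rw [h, h2, neg_smul, one_smul]

lemma eq_of_fix_near {u v : S2} {a : ℤˣ} (h : rf (u : E3) (v : E3) = sg a (v : E3))
    (hpos : 0 < inner ℝ (u : E3) (v : E3)) : v = u := by
  rcases Int.units_eq_one_or a with rfl | rfl
  · have h1 := rf_pos (norm_S2 u) h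
    rcases unit_par (norm_S2 u) (norm_S2 v) h1 with h2 | h2
    · exact Subtype.ext h2
    · rw [h2, inner_neg_right, real_inner_self_eq_norm_sq, norm_S2] at hpos
      norm_num at hpos
  · rw [rf_neg (norm_S2 u) h] at hpos
    exact absurd hpos (lt_irrefl _)

/-- the triple of the reflections at a point -/
def rf3 (x : MM) : LL := (rf (x.1 : E3), rf (x.2.1 : E3), rf (x.2.2 : E3))

lemma rf_self (u : E3) : rf u u = u :=
  Submodule.reflection_mem_subspace_eq_self (Submodule.mem_span_singleton_self u)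

lemma act_rf3_self (x : MM) : act (rf3 x) x = x := by
  apply emb_injective
  simp only [emb, act, rf3, coe_sph, rf_self]

lemma act_rf3_rf3 (x y : MM) : act (rf3 x) (act (rf3 x) y) = y := by
  apply emb_injective
  simp only [emb, act, rf3, coe_sph, Submodule.reflection_reflection]

omit [T2Space N] [CompactSpace N] [ConnectedSpace N] in
/-- the fibres of the quotient -/
lemma fib (hq : IsQuotient Gam gM g' p) {x y : MM} (h : p x = p y) :
    ∃ a b : ℤˣ, (y.1 : E3) = sg a (x.1 : E3) ∧ (y.2.1 : E3) = sg b (x.2.1 : E3) ∧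
      (y.2.2 : E3) = sg (a * b) (x.2.2 : E3) := by
  obtain ⟨γ, hγ⟩ := (hq.fibre x y).1 h
  refine ⟨γ.1, γ.2, ?_, ?_, ?_⟩ <;> rw [← hγ] <;> rfl

omit [T2Space N] [CompactSpace N] [ConnectedSpace N] in
lemma fib_mk (hq : IsQuotient Gam gM g' p) {x y : MM} (a b : ℤˣ)
    (h1 : (y.1 : E3) = sg a (x.1 : E3)) (h2 : (y.2.1 : E3) = sg b (x.2.1 : E3))
    (h3 : (y.2.2 : E3) = sg (a * b) (x.2.2 : E3)) : p x = p y := by
  refine (hq.fibre x y).2 ⟨(a, b), ?_⟩
  apply emb_injective
  show ((sg a (x.1 : E3)), (sg b (x.2.1 : E3)), (sg (a * b) (x.2.2 : E3))) = emb y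
  rw [← h1, ← h2, ← h3]
  rfl

/-- the geodesic symmetries -/
theorem symm_desc (hq : IsQuotient Gam gM g' p) (x : MM) :
    letI := mN g'
    ∃ s : N ≃ᵢ N, IsSymmetryAt (p x) s ∧ ∀ y, s (p y) = p (act (rf3 x) y) := by
  letI := mN g'
  obtain ⟨s, hs⟩ := exists_desc hq (rf3 x)
  refine ⟨s, ⟨?_, ?_, ?_⟩, hs⟩
  · intro n
    obtain ⟨y, rfl⟩ := hq.surjective n
    rw [hs, hs, act_rf3_rf3]
  · rw [hs, act_rf3_self]
  · obtain ⟨ε, hε, hsub⟩ := Metric.mem_nhds_iff.1 (nhd_mem hq x)
    refine ⟨ε, hε, ?_⟩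
    intro n hn hfix
    obtain ⟨y, ⟨p1, p2, p3⟩, rfl⟩ := hsub (Metric.mem_ball.2 hn)
    rw [hs] at hfix
    obtain ⟨a, b, h1, h2, h3⟩ := fib hq hfix.symm
    have e1 := eq_of_fix_near (u := x.1) (v := y.1) h1 p1
    have e2 := eq_of_fix_near (u := x.2.1) (v := y.2.1) h2 p2
    have e3 := eq_of_fix_near (u := x.2.2) (v := y.2.2) h3 p3
    exact congrArg p (Prod.ext e1 (Prod.ext e2 e3))

/-- the quotient is a symmetric space -/
theorem symmetric_N (hq : IsQuotient Gam gM g' p) :
    letI := mN g'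
    IsSymmetric N := by
  letI := mN g'
  intro n
  obtain ⟨x, rfl⟩ := hq.surjective n
  obtain ⟨s, hs, -⟩ := symm_desc hq x
  exact ⟨s, hs⟩

/-- the line of a point of the sphere -/
def line (u : S2) : Set E3 := {(u : E3), -(u : E3)}

lemma line_eq_iff (u v : S2) : line u = line v ↔ (v : E3) = u ∨ (v : E3) = -u := by
  constructor
  · intro h
    have : (v : E3) ∈ line u := by rw [h]; exact Set.mem_insert _ _
    exact this
  · rintro (h | h)
    · rw [line, line, h]
    · rw [line, line, h, neg_neg, Set.pair_comm]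

lemma line_ne_of_perp {u v : S2} (h : inner ℝ (u : E3) (v : E3) = (0 : ℝ)) : line u ≠ line v := by
  intro h2
  have h3 : inner ℝ (u : E3) (u : E3) = (1 : ℝ) := by
    rw [real_inner_self_eq_norm_sq, norm_S2]; norm_num
  rcases (line_eq_iff u v).1 h2 with h4 | h4
  · rw [h4, h3] at h; norm_num at h
  · rw [h4, inner_neg_right, h3] at h; norm_num at h

/-- comparison of a coordinate -/
lemma coord {u v : S2} {a : ℤˣ} (h : rf (u : E3) (v : E3) = sg a (v : E3)) :
    (a = 1 ∧ line u = line v) ∨ (a = -1 ∧ inner ℝ (u : E3) (v : E3) = (0 : ℝ)) := by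
  rcases Int.units_eq_one_or a with rfl | rfl
  · left
    exact ⟨rfl, (line_eq_iff u v).2 (unit_par (norm_S2 u) (norm_S2 v) (rf_pos (norm_S2 u) h))⟩
  · right
    exact ⟨rfl, rf_neg (norm_S2 u) h⟩

/-- relation of two antipodal points -/
def Rel (x y : MM) : Prop :=
  (line x.1 = line y.1 ∧ line x.2.1 = line y.2.1 ∧ line x.2.2 = line y.2.2) ∨
  (line x.1 = line y.1 ∧ inner ℝ (x.2.1 : E3) (y.2.1 : E3) = (0 : ℝ) ∧
    inner ℝ (x.2.2 : E3) (y.2.2 : E3) = (0 : ℝ)) ∨
  (inner ℝ (x.1 : E3) (y.1 : E3) = (0 : ℝ) ∧ line x.2.1 = line y.2.1 ∧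
    inner ℝ (x.2.2 : E3) (y.2.2 : E3) = (0 : ℝ)) ∨
  (inner ℝ (x.1 : E3) (y.1 : E3) = (0 : ℝ) ∧ inner ℝ (x.2.1 : E3) (y.2.1 : E3) = (0 : ℝ) ∧
    line x.2.2 = line y.2.2)

omit [T2Space N] [CompactSpace N] [ConnectedSpace N] in
lemma rel_of_fix (hq : IsQuotient Gam gM g' p) {x y : MM} (h : p (act (rf3 x) y) = p y) :
    Rel x y := by
  obtain ⟨γ, hγ⟩ := (hq.fibre _ _).1 h.symm
  have h1 : rf (x.1 : E3) (y.1 : E3) = sg γ.1 (y.1 : E3) :=
    (congrArg (fun z : MM => (z.1 : E3)) hγ).symm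
  have h2 : rf (x.2.1 : E3) (y.2.1 : E3) = sg γ.2 (y.2.1 : E3) :=
    (congrArg (fun z : MM => (z.2.1 : E3)) hγ).symm
  have h3 : rf (x.2.2 : E3) (y.2.2 : E3) = sg (γ.1 * γ.2) (y.2.2 : E3) :=
    (congrArg (fun z : MM => (z.2.2 : E3)) hγ).symm
  unfold Rel
  rcases coord h1 with ⟨a1, b1⟩ | ⟨a1, b1⟩ <;> rcases coord h2 with ⟨a2, b2⟩ | ⟨a2, b2⟩ <;>
    rcases coord h3 with ⟨a3, b3⟩ | ⟨a3, b3⟩ <;> rw [a1, a2] at a3 <;>
    first
    | exact absurd a3 (by decide)
    | tauto

/-- a family of pairwise orthogonal points of the sphere has at most three members -/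
lemma card_perp {ι : Type} (T : Finset ι) (u : ι → S2)
    (h : ∀ i ∈ T, ∀ j ∈ T, i ≠ j → inner ℝ (u i : E3) (u j : E3) = (0 : ℝ)) : T.card ≤ 3 := by
  have ho : Orthonormal ℝ (fun i : T => (u i.1 : E3)) := by
    refine ⟨fun i => norm_S2 _, ?_⟩
    intro i j hij
    exact h i.1 i.2 j.1 j.2 (fun e => hij (Subtype.ext e))
  have h2 := ho.linearIndependent.fintype_card_le_finrank
  rwa [Fintype.card_coe, finrank_euclideanSpace, Fintype.card_fin] at h2

omit [T2Space N] [CompactSpace N] [ConnectedSpace N] in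
/-- a set of points of the quotient with pairwise related representatives has at most eight
elements -/
theorem card_le_eight (hq : IsQuotient Gam gM g' p) (B : Finset N) (r : N → MM)
    (hr : ∀ n, p (r n) = n) (hB : ∀ m ∈ B, ∀ n ∈ B, Rel (r m) (r n)) : B.card ≤ 8 := by
  classical
  by_contra hcon
  push Not at hcon
  let F : N → Set E3 × Set E3 × Set E3 := fun n =>
    (line (r n).1, line (r n).2.1, line (r n).2.2)
  set T := B.image F with hT
  -- the fibres have at most two elements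
  have hfib : ∀ t ∈ T, (B.filter fun n => F n = t).card ≤ 2 := by
    intro t ht
    obtain ⟨m, hm, rfl⟩ := Finset.mem_image.1 ht
    have hsub : (B.filter fun n => F n = F m) ⊆
        {m, p ((sph (sg (-1)) (r m).1, (r m).2.1, (r m).2.2) : MM)} := by
      intro n hn
      obtain ⟨_, hF⟩ := Finset.mem_filter.1 hn
      have e1 : line (r m).1 = line (r n).1 := (congrArg Prod.fst hF).symm
      have e2 : line (r m).2.1 = line (r n).2.1 := (congrArg (fun z => z.2.1) hF).symm
      have e3 : line (r m).2.2 = line (r n).2.2 := (congrArg (fun z => z.2.2) hF).symm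
      have sgn : ∀ {u v : S2}, line u = line v → ∃ a : ℤˣ, (v : E3) = sg a (u : E3) := by
        intro u v h
        rcases (line_eq_iff u v).1 h with h | h
        · exact ⟨1, by rw [sg_one, h]⟩
        · exact ⟨-1, by rw [sg_neg_one, h]⟩
      obtain ⟨a, ha⟩ := sgn e1
      obtain ⟨b, hb⟩ := sgn e2
      obtain ⟨c, hc⟩ := sgn e3
      rw [Finset.mem_insert, Finset.mem_singleton]
      by_cases habc : c = a * b
      · left
        rw [← hr n, ← hr m]
        exact (fib_mk hq a b ha hb (by rw [hc, habc])).symm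
      · right
        have hc' : c = -a * b := by
          revert habc
          rcases Int.units_eq_one_or a with rfl | rfl <;>
          rcases Int.units_eq_one_or b with rfl | rfl <;>
          rcases Int.units_eq_one_or c with rfl | rfl <;> decide
        have h0 : p ((sph (sg (-1)) (r m).1, (r m).2.1, (r m).2.2) : MM) = p (r n) := by
          refine fib_mk hq (-a) b ?_ hb ?_
          · show ((r n).1 : E3) = sg (-a) (sg (-1) ((r m).1 : E3))
            rw [← sg_mul, neg_mul_neg, mul_one, ha]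
          · show ((r n).2.2 : E3) = sg (-a * b) ((r m).2.2 : E3)
            rw [hc, hc']
        rw [hr n] at h0
        exact h0.symm
    exact (Finset.card_le_card hsub).trans Finset.card_le_two
  have hT5 : 5 ≤ T.card := by
    have h0 : B.card ≤ 2 * T.card := Finset.card_le_mul_card_image B 2 hfib
    omega
  -- choose members
  have hsec : ∀ t ∈ T, ∃ n ∈ B, F n = t := fun t ht => Finset.mem_image.1 ht
  obtain ⟨m0, -⟩ : B.Nonempty := Finset.card_pos.1 (by omega)
  have : Nonempty N := ⟨m0⟩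
  choose! s hsB hsF using hsec
  have hex : ∀ t ∈ T, ∀ u ∈ T, t ≠ u → Ex (t.1 = u.1) (t.2.1 = u.2.1) (t.2.2 = u.2.2) := by
    intro t ht u hu htu
    have hrel := hB (s t) (hsB t ht) (s u) (hsB u hu)
    have ft := hsF t ht
    have fu := hsF u hu
    have t1 : t.1 = line (r (s t)).1 := (congrArg Prod.fst ft).symm
    have t2 : t.2.1 = line (r (s t)).2.1 := (congrArg (fun z => z.2.1) ft).symm
    have t3 : t.2.2 = line (r (s t)).2.2 := (congrArg (fun z => z.2.2) ft).symm
    have u1 : u.1 = line (r (s u)).1 := (congrArg Prod.fst fu).symm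
    have u2 : u.2.1 = line (r (s u)).2.1 := (congrArg (fun z => z.2.1) fu).symm
    have u3 : u.2.2 = line (r (s u)).2.2 := (congrArg (fun z => z.2.2) fu).symm
    rw [t1, t2, t3, u1, u2, u3]
    unfold Ex
    rcases hrel with ⟨a, b, c⟩ | ⟨a, b, c⟩ | ⟨a, b, c⟩ | ⟨a, b, c⟩
    · exfalso
      apply htu
      rw [← t1, ← u1] at a
      rw [← t2, ← u2] at b
      rw [← t3, ← u3] at c
      exact Prod.ext a (Prod.ext b c)
    · exact Or.inl ⟨a, line_ne_of_perp b, line_ne_of_perp c⟩
    · exact Or.inr (Or.inl ⟨line_ne_of_perp a, b, line_ne_of_perp c⟩)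
    · exact Or.inr (Or.inr ⟨line_ne_of_perp a, line_ne_of_perp b, c⟩)
  have hcc := common_coordinate (fun t : Set E3 × Set E3 × Set E3 => t.1) (fun t => t.2.1)
    (fun t => t.2.2) T hex hT5
  have hline : ∀ t ∈ T, t.1 = line (r (s t)).1 ∧ t.2.1 = line (r (s t)).2.1 ∧
      t.2.2 = line (r (s t)).2.2 := by
    intro t ht
    have ft := hsF t ht
    exact ⟨(congrArg Prod.fst ft).symm, (congrArg (fun z => z.2.1) ft).symm,
      (congrArg (fun z => z.2.2) ft).symm⟩
  rcases hcc with h | h | h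
  · -- first coordinates agree: the second ones are orthogonal
    have := card_perp T (fun t => (r (s t)).2.1) (by
      intro t ht u hu htu
      have hrel := hB (s t) (hsB t ht) (s u) (hsB u hu)
      obtain ⟨t1, t2, t3⟩ := hline t ht
      obtain ⟨u1, u2, u3⟩ := hline u hu
      have hx := hex t ht u hu htu
      have h1 := h t ht u hu
      rw [t1, u1] at h1
      rcases hrel with ⟨a, b, c⟩ | ⟨a, b, c⟩ | ⟨a, b, c⟩ | ⟨a, b, c⟩
      · exfalso
        apply htu
        exact Prod.ext (by rw [t1, u1, a]) (Prod.ext (by rw [t2, u2, b]) (by rw [t3, u3, c]))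
      · exact b
      · exact absurd h1 (line_ne_of_perp a)
      · exact absurd h1 (line_ne_of_perp a))
    omega
  · have := card_perp T (fun t => (r (s t)).1) (by
      intro t ht u hu htu
      have hrel := hB (s t) (hsB t ht) (s u) (hsB u hu)
      obtain ⟨t1, t2, t3⟩ := hline t ht
      obtain ⟨u1, u2, u3⟩ := hline u hu
      have h1 := h t ht u hu
      rw [t2, u2] at h1
      rcases hrel with ⟨a, b, c⟩ | ⟨a, b, c⟩ | ⟨a, b, c⟩ | ⟨a, b, c⟩
      · exfalso
        apply htu
        exact Prod.ext (by rw [t1, u1, a]) (Prod.ext (by rw [t2, u2, b]) (by rw [t3, u3, c]))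
      · exact absurd h1 (line_ne_of_perp b)
      · exact a
      · exact absurd h1 (line_ne_of_perp b))
    omega
  · have := card_perp T (fun t => (r (s t)).1) (by
      intro t ht u hu htu
      have hrel := hB (s t) (hsB t ht) (s u) (hsB u hu)
      obtain ⟨t1, t2, t3⟩ := hline t ht
      obtain ⟨u1, u2, u3⟩ := hline u hu
      have h1 := h t ht u hu
      rw [t3, u3] at h1
      rcases hrel with ⟨a, b, c⟩ | ⟨a, b, c⟩ | ⟨a, b, c⟩ | ⟨a, b, c⟩
      · exfalso
        apply htu
        exact Prod.ext (by rw [t1, u1, a]) (Prod.ext (by rw [t2, u2, b]) (by rw [t3, u3, c]))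
      · exact absurd h1 (line_ne_of_perp c)
      · exact absurd h1 (line_ne_of_perp c)
      · exact a)
    omega

end Pool.Agent.R728.TN
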