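import Mathlib

/-! A combinatorial lemma on triples which agree pairwise in exactly one coordinate. -/

set_option autoImplicit false

namespace Pool.Agent.R728.TN

/-- exactly one of three propositions -/
def Ex (a b c : Prop) : Prop := (a ∧ ¬ b ∧ ¬ c) ∨ (¬ a ∧ b ∧ ¬ c) ∨ (¬ a ∧ ¬ b ∧ c)

lemma Ex.rot {a b c : Prop} (h : Ex a b c) : Ex b c a := by
  unfold Ex at *; tauto

lemma Ex.swap {a b c : Prop} (h : Ex a b c) : Ex b a c := by
  unfold Ex at *; tauto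

variable {ι α β γ : Type*} [DecidableEq ι]

lemma third (f : ι → α) (g : ι → β) (h : ι → γ) {t0 t u w : ι}
    (h1 : f t = f t0) (h2 : g u = g t0)
    (a1 : Ex (f t = f t0) (g t = g t0) (h t = h t0))
    (a2 : Ex (f u = f t0) (g u = g t0) (h u = h t0))
    (a3 : Ex (f t = f u) (g t = g u) (h t = h u))
    (a4 : Ex (f w = f t0) (g w = g t0) (h w = h t0))
    (a5 : Ex (f w = f t) (g w = g t) (h w = h t))
    (a6 : Ex (f w = f u) (g w = g u) (h w = h u)) :
    f w = f u ∧ g w = g t ∧ h w = h t0 := by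
  unfold Ex at *
  grind

lemma two_types (f : ι → α) (g : ι → β) (h : ι → γ) (T : Finset ι)
    (hT : ∀ t ∈ T, ∀ u ∈ T, t ≠ u → Ex (f t = f u) (g t = g u) (h t = h u))
    {t0 t u : ι} (m0 : t0 ∈ T) (m1 : t ∈ T) (m2 : u ∈ T) (n1 : t ≠ t0) (n2 : u ≠ t0)
    (h1 : f t = f t0) (h2 : g u = g t0) : T.card < 5 := by
  by_contra hcon
  push Not at hcon
  have n3 : t ≠ u := by
    rintro rfl
    have := hT t m1 t0 m0 n1
    unfold Ex at this
    tauto
  have c3 : ({t0, t, u} : Finset ι).card ≤ 3 := Finset.card_le_three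
  obtain ⟨w0, hw0, hw0'⟩ := Finset.exists_mem_notMem_of_card_lt_card
    (s := ({t0, t, u} : Finset ι)) (t := T) (by omega)
  have c4 : ({w0, t0, t, u} : Finset ι).card ≤ 4 := Finset.card_le_four
  obtain ⟨w, hw, hw'⟩ := Finset.exists_mem_notMem_of_card_lt_card
    (s := ({w0, t0, t, u} : Finset ι)) (t := T) (by omega)
  simp only [Finset.mem_insert, Finset.mem_singleton, not_or] at hw0' hw'
  have e0 := third f g h h1 h2 (hT t m1 t0 m0 n1) (hT u m2 t0 m0 n2) (hT t m1 u m2 n3)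
    (hT w0 hw0 t0 m0 hw0'.1) (hT w0 hw0 t m1 hw0'.2.1) (hT w0 hw0 u m2 hw0'.2.2)
  have e1 := third f g h h1 h2 (hT t m1 t0 m0 n1) (hT u m2 t0 m0 n2) (hT t m1 u m2 n3)
    (hT w hw t0 m0 hw'.2.1) (hT w hw t m1 hw'.2.2.1) (hT w hw u m2 hw'.2.2.2)
  have e2 := hT w hw w0 hw0 hw'.1
  unfold Ex at e2
  rw [e0.1, e0.2.1, e1.1, e1.2.1] at e2
  tauto

/-- five triples which agree pairwise in exactly one coordinate have a common coordinate -/
theorem common_coordinate (f : ι → α) (g : ι → β) (h : ι → γ) (T : Finset ι)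
    (hT : ∀ t ∈ T, ∀ u ∈ T, t ≠ u → Ex (f t = f u) (g t = g u) (h t = h u)) (h5 : 5 ≤ T.card) :
    (∀ t ∈ T, ∀ u ∈ T, f t = f u) ∨ (∀ t ∈ T, ∀ u ∈ T, g t = g u) ∨
      (∀ t ∈ T, ∀ u ∈ T, h t = h u) := by
  obtain ⟨t0, m0⟩ : T.Nonempty := Finset.card_pos.1 (by omega)
  by_contra hcon
  have hA : ¬ ∀ t ∈ T, f t = f t0 := fun hh =>
    hcon (Or.inl fun t ht u hu => (hh t ht).trans (hh u hu).symm)
  have hB : ¬ ∀ t ∈ T, g t = g t0 := fun hh =>
    hcon (Or.inr (Or.inl fun t ht u hu => (hh t ht).trans (hh u hu).symm))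
  have hC : ¬ ∀ t ∈ T, h t = h t0 := fun hh =>
    hcon (Or.inr (Or.inr fun t ht u hu => (hh t ht).trans (hh u hu).symm))
  push Not at hA hB hC
  -- no two different types
  have k12 : ∀ t ∈ T, ∀ u ∈ T, t ≠ t0 → u ≠ t0 → f t = f t0 → g u = g t0 → False := by
    intro t ht u hu n1 n2 h1 h2
    have := two_types f g h T hT m0 ht hu n1 n2 h1 h2
    omega
  have k13 : ∀ t ∈ T, ∀ u ∈ T, t ≠ t0 → u ≠ t0 → f t = f t0 → h u = h t0 → False := by
    intro t ht u hu n1 n2 h1 h2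
    have := two_types f h g T (fun a ha b hb hab => (hT a ha b hb hab).swap.rot)
      m0 ht hu n1 n2 h1 h2
    omega
  have k23 : ∀ t ∈ T, ∀ u ∈ T, t ≠ t0 → u ≠ t0 → g t = g t0 → h u = h t0 → False := by
    intro t ht u hu n1 n2 h1 h2
    have := two_types g h f T (fun a ha b hb hab => (hT a ha b hb hab).rot) m0 ht hu n1 n2 h1 h2
    omega
  obtain ⟨ta, ha, ha'⟩ := hA
  obtain ⟨tb, hb, hb'⟩ := hB
  obtain ⟨tc, hc, hc'⟩ := hC
  have na : ta ≠ t0 := fun e => ha' (by rw [e])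
  have nb : tb ≠ t0 := fun e => hb' (by rw [e])
  have nc : tc ≠ t0 := fun e => hc' (by rw [e])
  have xa := hT ta ha t0 m0 na
  have xb := hT tb hb t0 m0 nb
  have xc := hT tc hc t0 m0 nc
  unfold Ex at xa xb xc
  grind

end Pool.Agent.R728.TN
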