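import Pool.Agent.R728.TN.Bounds

/-! Two-number and mod 2 Betti number of the quotient of `S² × S² × S²` by the even sign
changes. -/

set_option autoImplicit false

open scoped Manifold ContDiff Topology ENNReal
open Set Bundle Bornology Filter Manifold MeasureTheory Module

noncomputable section

namespace Pool.Agent.R728.TN

open Pool.Agent.Y503.HC (IsIsometry IsQuotient dist_map_le)
open Pool.Agent.Helper381

attribute [local instance] actG

/-- the points of the coordinate axes -/
def ee (j : Fin 3) : S2 := ⟨EuclideanSpace.single j 1, by simp⟩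

lemma ee_inner (i j : Fin 3) : inner ℝ (ee i : E3) (ee j : E3) = if i = j then (1 : ℝ) else 0 := by
  simp [ee, EuclideanSpace.inner_single_left]

lemma ee_inner_left (i : Fin 3) (v : E3) : inner ℝ (ee i : E3) v = v i := by
  simp [ee, EuclideanSpace.inner_single_left]

/-- the sign of a coordinate reflection on an axis -/
def cc (k j : Fin 3) : ℤˣ := if j = k then 1 else -1

lemma rf_ee (k j : Fin 3) : rf (ee k : E3) (ee j : E3) = sg (cc k j) (ee j : E3) := by
  unfold cc
  by_cases h : j = k
  · subst h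
    rw [if_pos rfl, sg_one, rf_self]
  · rw [if_neg h, sg_neg_one, rf_apply (norm_S2 _), ee_inner, if_neg (Ne.symm h)]
    simp

/-- the coordinate reflections -/
def TT (k : Fin 3) : LL := (rf (ee k : E3), rf (ee k : E3), rf (ee k : E3))

/-- the fixed points -/
def pt (z : Equiv.Perm (Fin 3) × ℤˣ) : MM := (sph (sg z.2) (ee (z.1 0)), ee (z.1 1), ee (z.1 2))

lemma cc_perm : ∀ (σ : Equiv.Perm (Fin 3)) (k : Fin 3), cc k (σ 2) = cc k (σ 0) * cc k (σ 1) := by
  decide

variable {N : Type} [TopologicalSpace N] [ChartedSpace (ModelProd E2 (ModelProd E2 E2)) N]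
  [IsManifold II ∞ N]
  {g' : Pool.Agent.Y503.HC.Metric II N} {p : MM → N}

lemma pt_fixed (hq : IsQuotient Gam gM g' p) (k : Fin 3) (z : Equiv.Perm (Fin 3) × ℤˣ) :
    p (act (TT k) (pt z)) = p (pt z) := by
  refine (fib_mk hq (cc k (z.1 0)) (cc k (z.1 1)) ?_ ?_ ?_).symm
  · show rf (ee k : E3) (sg z.2 (ee (z.1 0) : E3)) =
      sg (cc k (z.1 0)) (sg z.2 (ee (z.1 0) : E3))
    rw [sg_comm, rf_ee, ← sg_mul, ← sg_mul, mul_comm]
  · exact rf_ee _ _
  · rw [← cc_perm]
    exact rf_ee _ _

lemma sg_inj {a b : ℤˣ} {i j : Fin 3} (h : sg a (ee i : E3) = sg b (ee j : E3)) :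
    a = b ∧ i = j := by
  have h1 : inner ℝ (ee i : E3) (sg a (ee i : E3)) = inner ℝ (ee i : E3) (sg b (ee j : E3)) := by
    rw [h]
  rcases Int.units_eq_one_or a with rfl | rfl <;> rcases Int.units_eq_one_or b with rfl | rfl <;>
    by_cases hij : i = j <;> simp [sg_one, sg_neg_one, ee_inner, hij] at h1 ⊢
  all_goals norm_num at h1

lemma pt_inj (hq : IsQuotient Gam gM g' p) : Function.Injective (fun z => p (pt z)) := by
  intro z w h
  obtain ⟨a, b, h1, h2, h3⟩ := fib hq h
  have e1 : sg w.2 (ee (w.1 0) : E3) = sg (a * z.2) (ee (z.1 0) : E3) := by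
    rw [sg_mul]; exact h1
  have e2 : sg 1 (ee (w.1 1) : E3) = sg b (ee (z.1 1) : E3) := by
    rw [sg_one]; exact h2
  have e3 : sg 1 (ee (w.1 2) : E3) = sg (a * b) (ee (z.1 2) : E3) := by
    rw [sg_one]; exact h3
  obtain ⟨f1, f2⟩ := sg_inj e1
  obtain ⟨f3, f4⟩ := sg_inj e2
  obtain ⟨f5, f6⟩ := sg_inj e3
  have hσ : z.1 = w.1 := by
    ext i
    fin_cases i
    · exact congrArg Fin.val f2.symm
    · exact congrArg Fin.val f4.symm
    · exact congrArg Fin.val f6.symm
  have ha : a = 1 := by
    rw [← f3, mul_one] at f5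
    exact f5.symm
  rw [ha, one_mul] at f1
  exact Prod.ext hσ f1.symm

/-- a common eigenvector of the coordinate reflections is on an axis -/
lemma axis {y : S2} (h0 : line (ee 0) = line y ∨ inner ℝ (ee 0 : E3) (y : E3) = (0 : ℝ))
    (h1 : line (ee 1) = line y ∨ inner ℝ (ee 1 : E3) (y : E3) = (0 : ℝ)) :
    ∃ j, line (ee j) = line y := by
  rcases h0 with h0 | h0
  · exact ⟨0, h0⟩
  rcases h1 with h1 | h1
  · exact ⟨1, h1⟩
  refine ⟨2, ?_⟩
  rw [line_eq_iff]
  rw [ee_inner_left] at h0 h1
  apply unit_par (norm_S2 _) (norm_S2 _)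
  rw [ee_inner_left]
  ext i
  fin_cases i
  · simpa [ee] using h0
  · simpa [ee] using h1
  · simp [ee]

lemma eq_of_axis {x y : S2} {i : Fin 3} {a : ℤˣ} (hx : (x : E3) = sg a (ee i : E3))
    (hy : ∃ j, line (ee j) = line y) (hpos : 0 < inner ℝ (x : E3) (y : E3)) : y = x := by
  obtain ⟨j, hj⟩ := hy
  by_cases hij : i = j
  · subst hij
    rcases (line_eq_iff _ _).1 hj with h | h <;> rcases Int.units_eq_one_or a with rfl | rfl
    · rw [sg_one] at hx
      exact Subtype.ext (h.trans hx.symm)
    · rw [sg_neg_one] at hx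
      rw [hx, h, inner_neg_left, ee_inner, if_pos rfl] at hpos
      norm_num at hpos
    · rw [sg_one] at hx
      rw [hx, h, inner_neg_right, ee_inner, if_pos rfl] at hpos
      norm_num at hpos
    · rw [sg_neg_one] at hx
      exact Subtype.ext (h.trans hx.symm)
  · exfalso
    rcases (line_eq_iff _ _).1 hj with h | h <;> rcases Int.units_eq_one_or a with rfl | rfl <;>
      simp [hx, h, sg_one, sg_neg_one, ee_inner, hij] at hpos

variable [T2Space N] [CompactSpace N] [ConnectedSpace N]

lemma geo_aux (J : ModelWithCorners ℝ E6 E6) (hJ : J = 𝓘(ℝ, E6)) (X : Type) [MetricSpace X]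
    [ChartedSpace E6 X] [IsManifold J ∞ X] [RiemannianBundle (fun x : X => TangentSpace J x)]
    [IsContMDiffRiemannianBundle J ∞ E6 (fun x : X => TangentSpace J x)]
    [IsRiemannianManifold J X] [CompactSpace X] : ∃ R, Geo X E6 R := by
  subst hJ
  exact riemannian_geo (E := E6) (M := X)

lemma II_eq : (II : ModelWithCorners ℝ E6 E6) = 𝓘(ℝ, E6) := by
  show (𝓡 2).prod ((𝓡 2).prod (𝓡 2)) = 𝓘(ℝ, E2 × E2 × E2)
  rw [modelWithCornersSelf_prod, modelWithCornersSelf_prod]

theorem geo_N (g' : Pool.Agent.Y503.HC.Metric II N) :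
    letI := mN g'
    ∃ R, Geo N E6 R := by
  letI : RiemannianBundle (fun x : N => TangentSpace II x) := ⟨g'.toRiemannianMetric⟩
  letI := mN g'
  haveI : IsRiemannianManifold II N := ⟨fun x y => rfl⟩
  letI cs : ChartedSpace E6 N := ‹ChartedSpace (ModelProd E2 (ModelProd E2 E2)) N›
  exact geo_aux II II_eq N

/-- the two-number is at most eight -/
theorem twoNumber_le_eight (hq : IsQuotient Gam gM g' p) :
    letI := mN g'
    twoNumber N ≤ 8 := by
  letI := mN g'
  obtain ⟨R, G⟩ := geo_N g'
  apply iSup_le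
  rintro ⟨A, hA⟩
  have hrel : ∀ m ∈ A, ∀ n ∈ A, Rel (Function.surjInv hq.surjective m)
      (Function.surjInv hq.surjective n) := by
    intro m hm n hn
    obtain ⟨s, hs, hfix⟩ := hA m hm n hn
    obtain ⟨s', hs', hs'p⟩ := symm_desc hq (Function.surjInv hq.surjective m)
    rw [Function.surjInv_eq hq.surjective m] at hs'
    have h1 := G.symm_unique hs hs' n
    rw [hfix] at h1
    apply rel_of_fix hq
    rw [← hs'p, Function.surjInv_eq hq.surjective n, ← h1]
  by_contra hcon
  push Not at hcon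
  have h9 : ((9 : ℕ) : ℕ∞) ≤ A.encard := by
    have := Order.add_one_le_of_lt hcon
    exact_mod_cast this
  obtain ⟨B, hBA, hB9⟩ := Set.exists_subset_encard_eq h9
  have hBfin : B.Finite := Set.finite_of_encard_eq_coe hB9
  have h8 := card_le_eight hq hBfin.toFinset (Function.surjInv hq.surjective)
    (Function.surjInv_eq hq.surjective) (by
      intro m hm n hn
      exact hrel m (hBA (hBfin.mem_toFinset.1 hm)) n (hBA (hBfin.mem_toFinset.1 hn)))
  rw [hBfin.encard_eq_coe_toFinset_card] at hB9
  have h10 : hBfin.toFinset.card = 9 := by exact_mod_cast hB9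
  omega

/-- the total mod 2 Betti number is at least twelve -/
theorem twelve_le_totalBetti (hq : IsQuotient Gam gM g' p) :
    letI := mN g'
    12 ≤ totalBetti (ZMod 2) N := by
  classical
  letI := mN g'
  obtain ⟨R, G⟩ := geo_N g'
  obtain ⟨s0, hs0⟩ := exists_desc hq (TT 0)
  obtain ⟨s1, hs1⟩ := exists_desc hq (TT 1)
  have hTT : ∀ k x, act (TT k) (act (TT k) x) = x := by
    intro k x
    apply emb_injective
    simp only [emb, act, TT, coe_sph, Submodule.reflection_reflection]
  have hrr : ∀ v : E3, rf (ee 0 : E3) (rf (ee 1 : E3) v) = rf (ee 1 : E3) (rf (ee 0 : E3) v) := by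
    intro v
    rw [rf_apply (norm_S2 _), rf_apply (norm_S2 _), rf_apply (norm_S2 _), rf_apply (norm_S2 _)]
    have h01 : inner ℝ (ee 0 : E3) (ee 1 : E3) = (0 : ℝ) := by rw [ee_inner]; simp
    have h10 : inner ℝ (ee 1 : E3) (ee 0 : E3) = (0 : ℝ) := by rw [ee_inner]; simp
    simp only [inner_sub_right, inner_smul_right, h01, h10]
    module
  have hcomm01 : ∀ x, act (TT 0) (act (TT 1) x) = act (TT 1) (act (TT 0) x) := by
    intro x
    apply emb_injective
    simp only [emb, act, TT, coe_sph, hrr]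
  have i0 : ∀ n, s0 (s0 n) = n := by
    intro n
    obtain ⟨x, rfl⟩ := hq.surjective n
    rw [hs0, hs0, hTT]
  have i1 : ∀ n, s1 (s1 n) = n := by
    intro n
    obtain ⟨x, rfl⟩ := hq.surjective n
    rw [hs1, hs1, hTT]
  have i01 : ∀ n, s0 (s1 n) = s1 (s0 n) := by
    intro n
    obtain ⟨x, rfl⟩ := hq.surjective n
    rw [hs1, hs0, hs0, hs1, hcomm01]
  set A : Finset N := Finset.univ.image (fun z => p (pt z)) with hA
  have hcard : A.card = 12 := by
    rw [hA, Finset.card_image_of_injective _ (pt_inj hq), Finset.card_univ, Fintype.card_prod,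
      Fintype.card_perm]
    rfl
  have hmain := card_le_fixed G [s0, s1] (by
      intro g hg
      simp only [List.mem_cons, List.not_mem_nil, or_false] at hg
      rcases hg with rfl | rfl
      · exact i0
      · exact i1) (by
      intro g hg h hh
      simp only [List.mem_cons, List.not_mem_nil, or_false] at hg hh
      rcases hg with rfl | rfl <;> rcases hh with rfl | rfl
      · intro x; rfl
      · exact i01
      · intro x; exact (i01 x).symm
      · intro x; rfl) A (by
      intro g hg a ha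
      obtain ⟨z, -, rfl⟩ := Finset.mem_image.1 ha
      simp only [List.mem_cons, List.not_mem_nil, or_false] at hg
      rcases hg with rfl | rfl
      · rw [hs0]; exact pt_fixed hq 0 z
      · rw [hs1]; exact pt_fixed hq 1 z) (by
      intro a ha
      obtain ⟨z, -, rfl⟩ := Finset.mem_image.1 ha
      obtain ⟨ε, hε, hsub⟩ := Metric.mem_nhds_iff.1 (nhd_mem hq (pt z))
      refine ⟨ε, hε, ?_⟩
      intro n hn hfix
      obtain ⟨y, ⟨p1, p2, p3⟩, rfl⟩ := hsub (Metric.mem_ball.2 hn)
      have f0 : p (act (TT 0) y) = p y := by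
        rw [← hs0]; exact hfix s0 (by simp)
      have f1 : p (act (TT 1) y) = p y := by
        rw [← hs1]; exact hfix s1 (by simp)
      obtain ⟨a0, b0, u1, u2, u3⟩ := fib hq f0.symm
      obtain ⟨a1, b1, v1, v2, v3⟩ := fib hq f1.symm
      have ax : ∀ {w : S2} {a b : ℤˣ}, rf (ee 0 : E3) (w : E3) = sg a (w : E3) →
          rf (ee 1 : E3) (w : E3) = sg b (w : E3) → ∃ j, line (ee j) = line w := by
        intro w a b h1 h2
        apply axis
        · rcases coord h1 with h | h
          · exact Or.inl h.2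
          · exact Or.inr h.2
        · rcases coord h2 with h | h
          · exact Or.inl h.2
          · exact Or.inr h.2
      have e1 : y.1 = (pt z).1 := eq_of_axis (a := z.2) (i := z.1 0) rfl (ax u1 v1) p1
      have e2 : y.2.1 = (pt z).2.1 :=
        eq_of_axis (a := 1) (i := z.1 1) (sg_one _).symm (ax u2 v2) p2
      have e3 : y.2.2 = (pt z).2.2 :=
        eq_of_axis (a := 1) (i := z.1 2) (sg_one _).symm (ax u3 v3) p3
      exact congrArg p (Prod.ext e1 (Prod.ext e2 e3)))
  rw [hcard] at hmain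
  exact_mod_cast hmain

end Pool.Agent.R728.TN
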