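import Pool.Agent.Y503.HC.FinQuot
import Pool.Agent.Y503.HC.Len
import Pool.Agent.Helper381.Riem3
import Pool.Agent.R728.TN.Fix

/-! Compact Riemannian quotients as metric spaces, isometries induced on them. -/

set_option autoImplicit false

open scoped Manifold ContDiff Topology ENNReal
open Set Bundle Bornology Filter Manifold MeasureTheory

noncomputable section

namespace Pool.Agent.R728.TN

open Pool.Agent.Y503.HC

variable {E : Type} [NormedAddCommGroup E] [NormedSpace ℝ E]
  {H : Type} [TopologicalSpace H] {I : ModelWithCorners ℝ E H}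
  {M : Type} [TopologicalSpace M] [ChartedSpace H M] [IsManifold I ∞ M]
  {N : Type} [TopologicalSpace N] [ChartedSpace H N] [IsManifold I ∞ N]

section Desc

variable {Γ : Type} [Group Γ] [MulAction Γ M] {g : Pool.Agent.Y503.HC.Metric I M}
  {g' : Pool.Agent.Y503.HC.Metric I N} {p : M → N}

/-- an isometry of the cover which respects the fibres induces an isometry of the quotient -/
theorem descend (hq : IsQuotient Γ g g' p) (φ : Diffeomorph I I M M ∞) (hφ : IsIsometry g φ)
    (hc : ∀ x y, p x = p y → p (φ x) = p (φ y)) :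
    ∃ ψ : N → N, ContMDiff I I ∞ ψ ∧ (∀ x, ψ (p x) = p (φ x)) ∧
      ∀ (n : N) (v w : TangentSpace I n),
        g'.inner (ψ n) (mfderiv I I ψ n v) (mfderiv I I ψ n w) = g'.inner n v w := by
  set ψ : N → N := fun n => p (φ (Function.surjInv hq.surjective n)) with hψ
  have hψp : ∀ x, ψ (p x) = p (φ x) := by
    intro x
    apply hc
    exact Function.surjInv_eq hq.surjective _
  have hps : ContMDiff I I ∞ p := hq.localDiffeo.contMDiff
  have hsm : ContMDiff I I ∞ ψ := by
    intro n
    obtain ⟨x, rfl⟩ := hq.surjective n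
    obtain ⟨Φ, hx, hΦ⟩ := hq.localDiffeo x
    have hxs : Φ x = p x := (hΦ hx).symm
    have h1 : ContMDiffAt I I ∞ Φ.symm (p x) := by
      have h0 := Φ.contMDiffOn_invFun
      apply h0.contMDiffAt
      apply Φ.open_target.mem_nhds
      rw [← hxs]
      exact Φ.map_source hx
    have h2 : ContMDiffAt I I ∞ (fun n => p (φ (Φ.symm n))) (p x) := by
      apply (hps _).comp
      exact (φ.contMDiff _).comp (p x) h1
    refine h2.congr_of_eventuallyEq ?_
    have h3 : Φ.target ∈ 𝓝 (p x) := by
      apply Φ.open_target.mem_nhds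
      rw [← hxs]
      exact Φ.map_source hx
    filter_upwards [h3] with m hm
    have h4 : Φ.symm m ∈ Φ.source := Φ.map_target hm
    have h5 : p (Φ.symm m) = m := by
      rw [hΦ h4]
      exact Φ.right_inv hm
    calc ψ m = ψ (p (Φ.symm m)) := by rw [h5]
      _ = p (φ (Φ.symm m)) := hψp _
  refine ⟨ψ, hsm, hψp, ?_⟩
  intro n v w
  obtain ⟨x, rfl⟩ := hq.surjective n
  -- the derivative of p is bijective
  have hbij : Function.Surjective (mfderiv I I p x) := by
    have hL := (hq.localDiffeo x).mfderivToContinuousLinearEquiv_coe (by simp)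
    intro u
    obtain ⟨v, hv⟩ := ((hq.localDiffeo x).mfderivToContinuousLinearEquiv (by simp)).surjective u
    refine ⟨v, ?_⟩
    rw [← hL]
    exact hv
  obtain ⟨v, rfl⟩ := hbij v
  obtain ⟨w, rfl⟩ := hbij w
  have dψ : MDifferentiableAt I I ψ (p x) := (hsm _).mdifferentiableAt (by simp)
  have dp : ∀ x, MDifferentiableAt I I p x := fun x => (hps x).mdifferentiableAt (by simp)
  have dφ : MDifferentiableAt I I φ x := (φ.contMDiff x).mdifferentiableAt (by simp)
  have e1 := mfderiv_comp x dψ (dp x)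
  have e2 := mfderiv_comp x (dp (φ x)) dφ
  have e3 : ψ ∘ p = p ∘ φ := funext hψp
  have e4 : ∀ u : E, (mfderiv I I ψ (p x) : E →L[ℝ] E) ((mfderiv I I p x : E →L[ℝ] E) u) =
      (mfderiv I I p (φ x) : E →L[ℝ] E) ((mfderiv I I φ x : E →L[ℝ] E) u) := by
    intro u
    have a1 : (mfderiv I I (ψ ∘ p) x : E →L[ℝ] E) u =
      (mfderiv I I ψ (p x) : E →L[ℝ] E) ((mfderiv I I p x : E →L[ℝ] E) u) :=
      congrArg (fun L : E →L[ℝ] E => L u) e1
    have a2 : (mfderiv I I (p ∘ φ) x : E →L[ℝ] E) u =
      (mfderiv I I p (φ x) : E →L[ℝ] E) ((mfderiv I I φ x : E →L[ℝ] E) u) :=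
      congrArg (fun L : E →L[ℝ] E => L u) e2
    rw [← a1, ← a2, e3]
  have e5 : (g'.inner (ψ (p x)) : E →L[ℝ] E →L[ℝ] ℝ)
      ((mfderiv I I ψ (p x) : E →L[ℝ] E) ((mfderiv I I p x : E →L[ℝ] E) v))
      ((mfderiv I I ψ (p x) : E →L[ℝ] E) ((mfderiv I I p x : E →L[ℝ] E) w)) =
      (g'.inner (p (φ x)) : E →L[ℝ] E →L[ℝ] ℝ)
      ((mfderiv I I p (φ x) : E →L[ℝ] E) ((mfderiv I I φ x : E →L[ℝ] E) v))
      ((mfderiv I I p (φ x) : E →L[ℝ] E) ((mfderiv I I φ x : E →L[ℝ] E) w)) := by
    rw [e4, e4]
    exact inner_congr' g' (hψp x) _ _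
  have e6 := hq.induced (φ x) (mfderiv I I φ x v) (mfderiv I I φ x w)
  have e7 := hφ x v w
  have e8 := hq.induced x v w
  exact (e5.trans (e6.trans e7)).trans e8.symm

end Desc

section MetricSp

variable [FiniteDimensional ℝ E] [CompactSpace N]

/-- points of a compact connected manifold are at finite distance -/
theorem dist_ne_top [ConnectedSpace N] (g : Pool.Agent.Y503.HC.Metric I N) (x y : N) :
    Pool.Agent.Y503.HC.dist g x y ≠ ⊤ := by
  let _ : RiemannianBundle (fun x : N => TangentSpace I x) := ⟨g.toRiemannianMetric⟩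
  have _ : IsContinuousRiemannianBundle E (fun x : N => TangentSpace I x) :=
    ⟨g.inner, g.contMDiff.continuous, fun _ _ _ => rfl⟩
  have hloc : ∀ z : N, ∀ᶠ w in 𝓝 z, Pool.Agent.Y503.HC.dist g z w < 1 := fun z => by
    have : IsManifold I 1 N := IsManifold.of_le (n := ∞) (by simp)
    exact eventually_riemannianEDist_lt I z one_pos
  have hcl : IsClopen {z : N | Pool.Agent.Y503.HC.dist g x z < ⊤} := by
    constructor
    · rw [← isOpen_compl_iff, isOpen_iff_mem_nhds]
      intro z hz
      filter_upwards [hloc z] with w hw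
      intro hw2
      apply hz
      have h1 := Pool.Agent.Y503.HC.dist_triangle g x w z
      rw [Pool.Agent.Y503.HC.dist_comm g w z] at h1
      exact lt_of_le_of_lt h1 (ENNReal.add_lt_top.2 ⟨hw2, hw.trans ENNReal.one_lt_top⟩)
    · rw [isOpen_iff_mem_nhds]
      intro z hz
      filter_upwards [hloc z] with w hw
      have h1 := Pool.Agent.Y503.HC.dist_triangle g x z w
      exact lt_of_le_of_lt h1 (ENNReal.add_lt_top.2 ⟨hz, hw.trans ENNReal.one_lt_top⟩)
  have h2 : {z : N | Pool.Agent.Y503.HC.dist g x z < ⊤} = univ := by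
    apply hcl.eq_univ
    exact ⟨x, by
      show Pool.Agent.Y503.HC.dist g x x < ⊤
      rw [Pool.Agent.Y503.HC.dist_self]; exact ENNReal.zero_lt_top⟩
  have h3 : y ∈ {z : N | Pool.Agent.Y503.HC.dist g x z < ⊤} := by rw [h2]; trivial
  exact ne_of_lt h3

/-- the metric space structure of a compact connected Riemannian manifold -/
@[reducible] def mN [T2Space N] [ConnectedSpace N] (g : Pool.Agent.Y503.HC.Metric I N) :
    MetricSpace N :=
  letI : RiemannianBundle (fun x : N => TangentSpace I x) := ⟨g.toRiemannianMetric⟩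
  haveI : IsContinuousRiemannianBundle E (fun x : N => TangentSpace I x) :=
    ⟨g.inner, g.contMDiff.continuous, fun _ _ _ => rfl⟩
  haveI : IsManifold I 1 N := IsManifold.of_le (n := ∞) (by simp)
  letI : EMetricSpace N := EMetricSpace.ofRiemannianMetric I N
  EMetricSpace.toMetricSpace (fun x y => dist_ne_top g x y)

theorem edist_mN [T2Space N] [ConnectedSpace N] (g : Pool.Agent.Y503.HC.Metric I N) (x y : N) :
    letI := mN g
    edist x y = Pool.Agent.Y503.HC.dist g x y := rfl

end MetricSp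

end Pool.Agent.R728.TN
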