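import Pool.Agent.R728.TN.Metr
import Pool.Agent.H839R2.Geo.Embed

/-! The product of three round two-spheres and the isometries given by triples of linear
isometries. -/

set_option autoImplicit false

open scoped Manifold ContDiff Topology ENNReal
open Set Bundle Bornology Filter Manifold MeasureTheory Module

noncomputable section

namespace Pool.Agent.R728.TN

open Pool.Agent.Y503.HC (IsIsometry IsQuotient)

/-- Euclidean plane -/
abbrev E2 : Type := EuclideanSpace ℝ (Fin 2)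

/-- Euclidean three-space -/
abbrev E3 : Type := EuclideanSpace ℝ (Fin 3)

instance factE3 : Fact (finrank ℝ E3 = 2 + 1) := ⟨by simp⟩

/-- the two-sphere -/
abbrev S2 : Type := Metric.sphere (0 : E3) 1

/-- the product of three two-spheres -/
abbrev MM : Type := S2 × S2 × S2

/-- the model vector space -/
abbrev E6 : Type := E2 × E2 × E2

/-- the model with corners -/
abbrev II : ModelWithCorners ℝ (E2 × E2 × E2) (ModelProd E2 (ModelProd E2 E2)) :=
  (𝓡 2).prod ((𝓡 2).prod (𝓡 2))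

/-- the ambient space -/
abbrev W : Type := E3 × E3 × E3

/-- the inclusion -/
def emb (x : MM) : W := ((x.1 : E3), (x.2.1 : E3), (x.2.2 : E3))

lemma emb_injective : Function.Injective emb := by
  intro x y h
  have h1 : (x.1 : E3) = y.1 := congrArg Prod.fst h
  have h2 : (x.2.1 : E3) = y.2.1 := congrArg (fun z : W => z.2.1) h
  have h3 : (x.2.2 : E3) = y.2.2 := congrArg (fun z : W => z.2.2) h
  exact Prod.ext (Subtype.ext h1) (Prod.ext (Subtype.ext h2) (Subtype.ext h3))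

lemma emb_smooth : ContMDiff II 𝓘(ℝ, W) ∞ emb := by
  have h1 : ContMDiff (𝓡 2) 𝓘(ℝ, E3) ∞ ((↑) : S2 → E3) := contMDiff_coe_sphere (m := ∞)
  apply ContMDiff.prodMk_space
  · exact h1.comp contMDiff_fst
  · apply ContMDiff.prodMk_space
    · exact h1.comp (contMDiff_fst.comp contMDiff_snd)
    · exact h1.comp (contMDiff_snd.comp contMDiff_snd)

/-- the differential of a map to a vector space, as a linear map of the model spaces -/
abbrev Dm {E : Type} [NormedAddCommGroup E] [NormedSpace ℝ E] {H : Type} [TopologicalSpace H]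
    (I : ModelWithCorners ℝ E H) {M : Type} [TopologicalSpace M] [ChartedSpace H M]
    {V : Type} [NormedAddCommGroup V] [NormedSpace ℝ V] (f : M → V) (x : M) : E →L[ℝ] V :=
  mfderiv I 𝓘(ℝ, V) f x

lemma Dm_comp {V V' : Type} [NormedAddCommGroup V] [NormedSpace ℝ V] [NormedAddCommGroup V']
    [NormedSpace ℝ V'] {ι : MM → V} (r : V →L[ℝ] V') {x : MM}
    (h1 : MDifferentiableAt II 𝓘(ℝ, V) ι x) (w : E6) :
    Dm II (r ∘ ι) x w = r (Dm II ι x w) := by
  have h3 := mfderiv_comp x (r.differentiableAt (x := ι x)).mdifferentiableAt h1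
  have h4 : Dm II (r ∘ ι) x w = Dm 𝓘(ℝ, V) r (ι x) (Dm II ι x w) :=
    congrArg (fun L : E6 →L[ℝ] V' => L w) h3
  rw [h4]
  unfold Dm
  rw [mfderiv_eq_fderiv, r.fderiv]

lemma emb_inj (x : MM) : Function.Injective (Dm II emb x) := by
  have d0 : MDifferentiableAt II 𝓘(ℝ, W) emb x := (emb_smooth x).mdifferentiableAt (by simp)
  have ds : ∀ y : S2, MDifferentiableAt (𝓡 2) 𝓘(ℝ, E3) ((↑) : S2 → E3) y := fun y =>
    (contMDiff_coe_sphere (m := ∞) y).mdifferentiableAt (by simp)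
  have e1 : ∀ w : E6, (Dm II emb x w).1 =
      (mfderiv (𝓡 2) 𝓘(ℝ, E3) ((↑) : S2 → E3) x.1 : _ →L[ℝ] E3) w.1 := by
    intro w
    have h1 := Dm_comp (ContinuousLinearMap.fst ℝ E3 (E3 × E3)) d0 w
    have h3 := mfderiv_comp x (ds x.1) (mdifferentiableAt_fst (I := 𝓡 2)
      (I' := (𝓡 2).prod (𝓡 2)) (x := x))
    have h4 := congrArg (fun L : E6 →L[ℝ] E3 => L w) h3
    rw [mfderiv_fst] at h4
    exact h1.symm.trans h4
  have e2 : ∀ w : E6, (Dm II emb x w).2.1 =
      (mfderiv (𝓡 2) 𝓘(ℝ, E3) ((↑) : S2 → E3) x.2.1 : _ →L[ℝ] E3) w.2.1 := by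
    intro w
    have h1 := Dm_comp ((ContinuousLinearMap.fst ℝ E3 E3).comp
      (ContinuousLinearMap.snd ℝ E3 (E3 × E3))) d0 w
    have hs : MDifferentiableAt II ((𝓡 2).prod (𝓡 2)) (Prod.snd : MM → S2 × S2) x :=
      mdifferentiableAt_snd (I := 𝓡 2) (I' := (𝓡 2).prod (𝓡 2))
    have hf : MDifferentiableAt ((𝓡 2).prod (𝓡 2)) (𝓡 2) (Prod.fst : S2 × S2 → S2) x.2 :=
      mdifferentiableAt_fst (I := 𝓡 2) (I' := 𝓡 2)
    have h3 := mfderiv_comp x (ds x.2.1) (hf.comp x hs)
    have h5 := mfderiv_comp x hf hs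
    rw [h5, mfderiv_fst, mfderiv_snd] at h3
    have h4 := congrArg (fun L : E6 →L[ℝ] E3 => L w) h3
    exact h1.symm.trans h4
  have e3 : ∀ w : E6, (Dm II emb x w).2.2 =
      (mfderiv (𝓡 2) 𝓘(ℝ, E3) ((↑) : S2 → E3) x.2.2 : _ →L[ℝ] E3) w.2.2 := by
    intro w
    have h1 := Dm_comp ((ContinuousLinearMap.snd ℝ E3 E3).comp
      (ContinuousLinearMap.snd ℝ E3 (E3 × E3))) d0 w
    have hs : MDifferentiableAt II ((𝓡 2).prod (𝓡 2)) (Prod.snd : MM → S2 × S2) x :=
      mdifferentiableAt_snd (I := 𝓡 2) (I' := (𝓡 2).prod (𝓡 2))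
    have hf : MDifferentiableAt ((𝓡 2).prod (𝓡 2)) (𝓡 2) (Prod.snd : S2 × S2 → S2) x.2 :=
      mdifferentiableAt_snd (I := 𝓡 2) (I' := 𝓡 2)
    have h3 := mfderiv_comp x (ds x.2.2) (hf.comp x hs)
    have h5 := mfderiv_comp x hf hs
    rw [h5, mfderiv_snd, mfderiv_snd] at h3
    have h4 := congrArg (fun L : E6 →L[ℝ] E3 => L w) h3
    exact h1.symm.trans h4
  intro u v huv
  have i := fun y : S2 => mfderiv_coe_sphere_injective (n := 2) y
  refine Prod.ext (i x.1 ?_) (Prod.ext (i x.2.1 ?_) (i x.2.2 ?_))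
  · exact (e1 u).symm.trans ((congrArg Prod.fst huv).trans (e1 v))
  · exact (e2 u).symm.trans ((congrArg (fun z : W => z.2.1) huv).trans (e2 v))
  · exact (e3 u).symm.trans ((congrArg (fun z : W => z.2.2) huv).trans (e3 v))

/-- the Euclidean inner product of the ambient space -/
def BB : W →L[ℝ] W →L[ℝ] ℝ :=
  (innerSL ℝ).bilinearComp (ContinuousLinearMap.fst ℝ E3 (E3 × E3))
      (ContinuousLinearMap.fst ℝ E3 (E3 × E3)) +
  ((innerSL ℝ).bilinearComp ((ContinuousLinearMap.fst ℝ E3 E3).comp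
      (ContinuousLinearMap.snd ℝ E3 (E3 × E3)))
      ((ContinuousLinearMap.fst ℝ E3 E3).comp (ContinuousLinearMap.snd ℝ E3 (E3 × E3))) +
  (innerSL ℝ).bilinearComp ((ContinuousLinearMap.snd ℝ E3 E3).comp
      (ContinuousLinearMap.snd ℝ E3 (E3 × E3)))
      ((ContinuousLinearMap.snd ℝ E3 E3).comp (ContinuousLinearMap.snd ℝ E3 (E3 × E3))))

lemma BB_apply (v w : W) : BB v w =
    inner ℝ v.1 w.1 + (inner ℝ v.2.1 w.2.1 + inner ℝ v.2.2 w.2.2) := rfl

lemma BB_pos (v : W) (hv : v ≠ 0) : 0 < BB v v := by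
  rw [BB_apply]
  have h1 : (0 : ℝ) ≤ inner ℝ v.1 v.1 := real_inner_self_nonneg
  have h2 : (0 : ℝ) ≤ inner ℝ v.2.1 v.2.1 := real_inner_self_nonneg
  have h3 : (0 : ℝ) ≤ inner ℝ v.2.2 v.2.2 := real_inner_self_nonneg
  by_contra hcon
  apply hv
  have a1 : inner ℝ v.1 v.1 = (0 : ℝ) := by linarith
  have a2 : inner ℝ v.2.1 v.2.1 = (0 : ℝ) := by linarith
  have a3 : inner ℝ v.2.2 v.2.2 = (0 : ℝ) := by linarith
  exact Prod.ext (inner_self_eq_zero.1 a1) (Prod.ext (inner_self_eq_zero.1 a2)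
    (inner_self_eq_zero.1 a3))

/-- the product of the round metrics -/
def gM : Pool.Agent.Y503.HC.Metric II MM :=
  Pool.Agent.H839R2.Geo.embMetric emb emb_smooth emb_inj (fun _ => BB)
    (fun _ => contDiffAt_const)
    (fun _ v w => by
      show BB v w = BB w v
      rw [BB_apply, BB_apply, real_inner_comm, real_inner_comm v.2.1, real_inner_comm v.2.2])
    (fun _ v hv => BB_pos v hv)

/-- a triple of linear isometries -/
abbrev LL : Type := (E3 ≃ₗᵢ[ℝ] E3) × (E3 ≃ₗᵢ[ℝ] E3) × (E3 ≃ₗᵢ[ℝ] E3)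

/-- a linear isometry on the sphere -/
def sph (T : E3 ≃ₗᵢ[ℝ] E3) (x : S2) : S2 := ⟨T x, by
  rw [mem_sphere_zero_iff_norm, T.norm_map]; exact mem_sphere_zero_iff_norm.1 x.2⟩

@[simp] lemma coe_sph (T : E3 ≃ₗᵢ[ℝ] E3) (x : S2) : (sph T x : E3) = T x := rfl

lemma sph_smooth (T : E3 ≃ₗᵢ[ℝ] E3) : ContMDiff (𝓡 2) (𝓡 2) ∞ (sph T) := by
  have h1 : ContMDiff (𝓡 2) 𝓘(ℝ, E3) ∞ (fun x : S2 => T (x : E3)) :=
    T.toContinuousLinearEquiv.contDiff.contMDiff.comp (contMDiff_coe_sphere (m := ∞))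
  exact h1.codRestrict_sphere _

/-- the action on the product -/
def act (T : LL) (x : MM) : MM := (sph T.1 x.1, sph T.2.1 x.2.1, sph T.2.2 x.2.2)

lemma act_smooth (T : LL) : ContMDiff II II ∞ (act T) := by
  apply ContMDiff.prodMk
  · exact (sph_smooth _).comp contMDiff_fst
  · apply ContMDiff.prodMk
    · exact (sph_smooth _).comp (contMDiff_fst.comp contMDiff_snd)
    · exact (sph_smooth _).comp (contMDiff_snd.comp contMDiff_snd)

/-- inverse triple -/
def inv3 (T : LL) : LL := (T.1.symm, T.2.1.symm, T.2.2.symm)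

/-- the diffeomorphism -/
def actD (T : LL) : Diffeomorph II II MM MM ∞ where
  toFun := act T
  invFun := act (inv3 T)
  left_inv x := by
    apply emb_injective
    simp [emb, act, inv3]
  right_inv x := by
    apply emb_injective
    simp [emb, act, inv3]
  contMDiff_toFun := act_smooth T
  contMDiff_invFun := act_smooth (inv3 T)

/-- the linear map of the ambient space -/
def lin (T : LL) : W →L[ℝ] W :=
  (T.1.toContinuousLinearEquiv : E3 →L[ℝ] E3).prodMap
    ((T.2.1.toContinuousLinearEquiv : E3 →L[ℝ] E3).prodMap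
      (T.2.2.toContinuousLinearEquiv : E3 →L[ℝ] E3))

lemma lin_apply (T : LL) (v : W) : lin T v = (T.1 v.1, T.2.1 v.2.1, T.2.2 v.2.2) := rfl

lemma BB_lin (T : LL) (v w : W) : BB (lin T v) (lin T w) = BB v w := by
  rw [BB_apply, BB_apply, lin_apply, lin_apply]
  simp only [LinearIsometryEquiv.inner_map_map]

lemma Dm_act (T : LL) (x : MM) (v : E6) :
    Dm II emb (act T x) (mfderiv II II (act T) x v : E6) = lin T (Dm II emb x v) := by
  have d1 : MDifferentiableAt II 𝓘(ℝ, W) emb (act T x) :=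
    (emb_smooth _).mdifferentiableAt (by simp)
  have d2 : MDifferentiableAt II II (act T) x := (act_smooth T x).mdifferentiableAt (by simp)
  have d3 : MDifferentiableAt II 𝓘(ℝ, W) emb x := (emb_smooth _).mdifferentiableAt (by simp)
  have e1 := mfderiv_comp x d1 d2
  have e2 : emb ∘ act T = lin T ∘ emb := rfl
  have e3 := Dm_comp (lin T) d3 v
  have e4 : Dm II (emb ∘ act T) x v =
    Dm II emb (act T x) (mfderiv II II (act T) x v : E6) :=
    congrArg (fun L : E6 →L[ℝ] W => L v) e1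
  rw [← e4, e2, e3]

lemma actD_isometry (T : LL) : IsIsometry gM (actD T) := by
  intro x v w
  have h1 : (gM.inner (act T x) : E6 →L[ℝ] E6 →L[ℝ] ℝ)
      (mfderiv II II (act T) x v) (mfderiv II II (act T) x w) =
      BB (Dm II emb (act T x) (mfderiv II II (act T) x v : E6))
        (Dm II emb (act T x) (mfderiv II II (act T) x w : E6)) := rfl
  refine Eq.trans h1 ?_
  rw [Dm_act, Dm_act, BB_lin]
  rfl

end Pool.Agent.R728.TN
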