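import Pool.Agent.R728.TN.Model
import Pool.Agent.R728.TN.Comb

/-! The quotient of `S² × S² × S²` by the even sign changes. -/

set_option autoImplicit false

open scoped Manifold ContDiff Topology ENNReal
open Set Bundle Bornology Filter Manifold MeasureTheory Module

noncomputable section

namespace Pool.Agent.R728.TN

open Pool.Agent.Y503.HC (IsIsometry IsQuotient)
open Pool.Agent.Helper381

/-- the sign `a` as a linear isometry -/
def sg (a : ℤˣ) : E3 ≃ₗᵢ[ℝ] E3 :=
  if a = 1 then LinearIsometryEquiv.refl ℝ E3 else LinearIsometryEquiv.neg ℝ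

lemma sg_one (v : E3) : sg 1 v = v := by simp [sg]

lemma sg_neg_one (v : E3) : sg (-1) v = -v := by
  have : (-1 : ℤˣ) ≠ 1 := by decide
  simp [sg, this]

lemma sg_mul (a b : ℤˣ) (v : E3) : sg (a * b) v = sg a (sg b v) := by
  rcases Int.units_eq_one_or a with rfl | rfl <;> rcases Int.units_eq_one_or b with rfl | rfl <;>
    simp [sg_one, sg_neg_one]

lemma sg_comm (a : ℤˣ) (T : E3 ≃ₗᵢ[ℝ] E3) (v : E3) : T (sg a v) = sg a (T v) := by
  rcases Int.units_eq_one_or a with rfl | rfl <;> simp [sg_one, sg_neg_one]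

lemma sg_sg (a : ℤˣ) (v : E3) : sg a (sg a v) = v := by
  rcases Int.units_eq_one_or a with rfl | rfl <;> simp [sg_one, sg_neg_one]

lemma sg_eq {a : ℤˣ} {v w : E3} (h : v = sg a w) : w = sg a v := by
  rw [h, sg_sg]

/-- the group of the even sign changes -/
abbrev Gam : Type := ℤˣ × ℤˣ

/-- the triple of a group element -/
def trip (γ : Gam) : LL := (sg γ.1, sg γ.2, sg (γ.1 * γ.2))

/-- the action of the even sign changes -/
@[reducible] def actG : MulAction Gam MM where
  smul γ x := act (trip γ) x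
  one_smul x := by
    apply emb_injective
    show emb (act (trip 1) x) = emb x
    simp [emb, act, trip, sg_one]
  mul_smul γ δ x := by
    apply emb_injective
    show emb (act (trip (γ * δ)) x) = emb (act (trip γ) (act (trip δ) x))
    have h : γ.1 * δ.1 * (γ.2 * δ.2) = γ.1 * γ.2 * (δ.1 * δ.2) := mul_mul_mul_comm _ _ _ _
    simp only [emb, act, trip, coe_sph, Prod.fst_mul, Prod.snd_mul]
    rw [sg_mul, sg_mul, h, sg_mul (γ.1 * γ.2)]

attribute [local instance] actG

lemma smul_def (γ : Gam) (x : MM) : γ • x = act (trip γ) x := rfl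

lemma ne_zero_S2 (x : S2) : (x : E3) ≠ 0 := by
  intro h
  have := mem_sphere_zero_iff_norm.1 x.2
  rw [h, norm_zero] at this
  norm_num at this

lemma sg_fix {a : ℤˣ} {v : E3} (hv : v ≠ 0) (h : sg a v = v) : a = 1 := by
  rcases Int.units_eq_one_or a with rfl | rfl
  · rfl
  · rw [sg_neg_one] at h
    have h2 : (2 : ℝ) • v = 0 := by
      rw [two_smul]
      nth_rewrite 1 [← h]
      exact neg_add_cancel v
    exact absurd ((smul_eq_zero.1 h2).resolve_left (by norm_num)) hv

lemma Gam_free (γ : Gam) (x : MM) (h : γ • x = x) : γ = 1 := by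
  have h1 : sg γ.1 (x.1 : E3) = x.1 := congrArg (fun z : MM => (z.1 : E3)) h
  have h2 : sg γ.2 (x.2.1 : E3) = x.2.1 := congrArg (fun z : MM => (z.2.1 : E3)) h
  exact Prod.ext (sg_fix (ne_zero_S2 _) h1) (sg_fix (ne_zero_S2 _) h2)

lemma Gam_isometry (γ : Gam) :
    ∃ f : Diffeomorph II II MM MM ∞, IsIsometry gM f ∧ ∀ x, f x = γ • x :=
  ⟨actD (trip γ), actD_isometry _, fun _ => rfl⟩

lemma act_smul (T : LL) (γ : Gam) (x : MM) : act T (γ • x) = γ • act T x := by
  apply emb_injective
  simp only [emb, smul_def, act, trip, coe_sph, sg_comm]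

/-- existence of the quotient -/
theorem exists_N :
    ∃ (N : Type) (_ : TopologicalSpace N) (_ : ChartedSpace (ModelProd E2 (ModelProd E2 E2)) N)
      (_ : IsManifold II ∞ N) (_ : T2Space N) (g' : Pool.Agent.Y503.HC.Metric II N) (p : MM → N),
      IsQuotient Gam gM g' p :=
  Pool.Agent.Y503.HC.exists_quotient gM Gam Gam_isometry Gam_free

instance : ConnectedSpace S2 := by
  have h : IsConnected (Metric.sphere (0 : E3) 1) := by
    apply isConnected_sphere _ _ zero_le_one
    rw [← Module.finrank_eq_rank, finrank_euclideanSpace, Fintype.card_fin]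
    norm_num
  exact isConnected_iff_connectedSpace.1 h

end Pool.Agent.R728.TN
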